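import Mathlib
import Pool.Agent.MP_37b4fc_an.Cp.Defs
import Pool.Agent.MP_37b4fc_an.Cp.Main

set_option autoImplicit false
open Filter Topology
open scoped ENNReal
open Pool.Agent.MP_37b4fc_an

namespace Pool.Agent.Results.MP_37b4fc_an.EveryCouple

universe u

/-- The case `p = ∞`, couple by couple.  For a couple `A1 ⊂ A0` of complex Banach spaces and
`0 < θ < 1` the following are equivalent: `A1` is closed in `A0`; for every target couple, every
map with (H) that is continuous on the small spaces is continuous between the `(θ,∞)` spaces;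
every self-map of the couple with (H) that is locally Lipschitz on `A1` is continuous on the
`(θ,∞)` space. -/
theorem result (θ : ℝ) (hθ0 : 0 < θ) (hθ1 : θ < 1) (A0 A1 : Type u)
    [NormedAddCommGroup A0] [NormedSpace ℂ A0] [CompleteSpace A0]
    [NormedAddCommGroup A1] [NormedSpace ℂ A1] [CompleteSpace A1]
    (ιA : A1 →L[ℂ] A0) (hA : Function.Injective ιA) :
    List.TFAE [IsClosed (Set.range ιA),
      ∀ (B0 B1 : Type u)
        [NormedAddCommGroup B0] [NormedSpace ℂ B0] [CompleteSpace B0]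
        [NormedAddCommGroup B1] [NormedSpace ℂ B1] [CompleteSpace B1]
        (ιB : B1 →L[ℂ] B0), Function.Injective ιB → AllContinuous ιA ιB θ Continuous,
      AllContinuous ιA ιA θ LocallyLipschitz] := by
  tfae_have 1 → 2 := by
    intro hc B0 B1 _ _ _ _ _ _ ιB _ U V M0 M1 hU hUV hV _ a ha ε hε
    obtain ⟨δ, hδ, h⟩ := Cp.cont_top (ιA : A1 →+ A0) (ιB : B1 →+ B0) U V (norm_nonneg ιA)
      (fun y => ιA.le_opNorm y) hU hUV hV hθ0 hθ1 a
      (Cp.small_of_closed (ιA.restrictScalars ℝ) hc hθ0 hθ1 a ha) hε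
    exact ⟨δ, hδ, fun b _ hb => h b hb⟩
  tfae_have 2 → 3 := fun h U V M0 M1 hU hUV hV hl =>
    h A0 A1 ιA hA U V M0 M1 hU hUV hV hl.continuous
  tfae_have 3 → 1 := Cp.closed_of_allContinuous (ιA.restrictScalars ℝ) hA hθ0 hθ1
  tfae_finish

/-- Point by point: all self-maps of the couple with (H) that are continuous on `A1` are
continuous at a point `a` of the `(θ,∞)` space exactly when `K(t,a) = o(t^θ)` as `t → 0`. -/
theorem pointwise (θ : ℝ) (hθ0 : 0 < θ) (hθ1 : θ < 1) (A0 A1 : Type u)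
    [NormedAddCommGroup A0] [NormedSpace ℂ A0] [NormedAddCommGroup A1] [NormedSpace ℂ A1]
    (ιA : A1 →L[ℂ] A0) (a : A0) (ha : Knorm ιA θ ∞ a < ∞) :
    (∀ (U : A0 → A0) (V : A1 → A1) (M0 M1 : ℝ), (∀ x x', ‖U x - U x'‖ ≤ M0 * ‖x - x'‖) →
      (∀ y, U (ιA y) = ιA (V y)) → (∀ y, ‖V y‖ ≤ M1 * ‖y‖) → Continuous V →
      ∀ ε : ℝ≥0∞, 0 < ε → ∃ δ : ℝ≥0∞, 0 < δ ∧ ∀ b : A0, Knorm ιA θ ∞ b < ∞ →
        Knorm ιA θ ∞ (b - a) < δ → Knorm ιA θ ∞ (U b - U a) < ε) ↔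
    ∀ c : ℝ, 0 < c → ∃ τ : ℝ, 0 < τ ∧ ∀ t, 0 < t → t < τ → Kf ιA t a ≤ c * t ^ θ := by
  constructor
  · intro h c hc
    by_contra hcon
    push Not at hcon
    obtain ⟨U, V, hU, hUV, hV, hVl, hn⟩ := Cp.discont_at (ιA.restrictScalars ℝ) hθ0 hθ1 a hc
      (fun s hs => Cp.Kf_le_of_Knorm ιA hθ0 hθ1 a ENNReal.toReal_nonneg
        (ENNReal.ofReal_toReal ha.ne).ge hs)
      (fun τ hτ => (hcon τ hτ).imp fun t ht => ⟨ht.1, ht.2.1, ht.2.2.le⟩)
    exact hn (h U V 6 2 hU hUV hV hVl.continuous _ (ENNReal.ofReal_pos.mpr (by positivity)))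
  · intro h U V M0 M1 hU hUV hV _ ε hε
    obtain ⟨δ, hδ, h⟩ := Cp.cont_top (ιA : A1 →+ A0) (ιA : A1 →+ A0) U V (norm_nonneg ιA)
      (fun y => ιA.le_opNorm y) hU hUV hV hθ0 hθ1 a h hε
    exact ⟨δ, hδ, fun b _ hb => h b hb⟩

end Pool.Agent.Results.MP_37b4fc_an.EveryCouple
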