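import Mathlib
import Pool.Agent.MP_37b4fc_an.Defs
import Pool.Agent.MP_37b4fc_an.Positive

set_option autoImplicit false
open MeasureTheory
open scoped ENNReal
open Pool.Agent.MP_37b4fc_an

namespace Pool.Agent.Results.MP_37b4fc_an.IffFinite

universe u

/-- For `0 < θ < 1` and `1 ≤ p ≤ ∞`: every map `U` satisfying (H) whose restriction to the small
spaces is continuous is continuous between the `(θ,p)` K-method spaces, for all couples of complex
Banach spaces, if and only if `p < ∞`. -/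
theorem result (θ : ℝ) (hθ0 : 0 < θ) (hθ1 : θ < 1) (p : ℝ≥0∞) (hp : 1 ≤ p) :
    (∀ (A0 A1 B0 B1 : Type u)
      [NormedAddCommGroup A0] [NormedSpace ℂ A0] [CompleteSpace A0]
      [NormedAddCommGroup A1] [NormedSpace ℂ A1] [CompleteSpace A1]
      [NormedAddCommGroup B0] [NormedSpace ℂ B0] [CompleteSpace B0]
      [NormedAddCommGroup B1] [NormedSpace ℂ B1] [CompleteSpace B1]
      (ιA : A1 →L[ℂ] A0) (ιB : B1 →L[ℂ] B0),
      Function.Injective ιA → Function.Injective ιB →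
      ∀ (U : A0 → B0) (V : A1 → B1) (M0 M1 : ℝ),
        (∀ a b : A0, ‖U a - U b‖ ≤ M0 * ‖a - b‖) →
        (∀ x : A1, U (ιA x) = ιB (V x)) →
        (∀ x : A1, ‖V x‖ ≤ M1 * ‖x‖) →
        Continuous V →
        ∀ a : A0, Knorm ιA θ p a < ∞ →
          ∀ ε : ℝ≥0∞, 0 < ε → ∃ δ : ℝ≥0∞, 0 < δ ∧ ∀ b : A0, Knorm ιA θ p b < ∞ →
            Knorm ιA θ p (b - a) < δ → Knorm ιB θ p (U b - U a) < ε) ↔ p ≠ ∞ := by
  constructor
  · rintro h rfl
    exact discont.{u} hθ0 hθ1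
      (h X.{u} X.{u} X.{u} X.{u} inc inc inc_injective inc_injective (UU θ) (VV θ) 1 1
        (UU_lip _) (UU_inc _) (VV_le _) (VV_cont hθ1) (pt θ hθ0 0) (pt_mem hθ0 hθ1 0)
        (ENNReal.ofReal (1 / 2)) (ENNReal.ofReal_pos.mpr (by norm_num)))
  · intro hp' A0 A1 B0 B1 _ _ _ _ _ _ _ _ _ _ _ _ ιA ιB _ _ U V M0 M1 hU hUV hV _ a ha ε hε
    obtain ⟨δ, hδ, h⟩ := cont_finite (ιA : A1 →+ A0) (ιB : B1 →+ B0) U V (norm_nonneg ιA)
      (fun y => ιA.le_opNorm y) hU hUV hV θ hp hp' a ha hε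
    exact ⟨δ, hδ, fun b _ hb => h b hb⟩

end Pool.Agent.Results.MP_37b4fc_an.IffFinite
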